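import Mathlib

set_option autoImplicit false
open Set Function

namespace Pool.Agent.H.MP_6bd103

variable {K ι : Type}

def ag (n : ℕ) (y x : ℕ → K) : Prop := ∀ i < n, y i = x i

def comp (r s : Set (ι × ℕ)) : Prop := ∀ h j j', (h, j) ∈ r → (h, j') ∈ s → j = j'

lemma root (S : Set K) (hS : ¬ S.Countable) (q : K → Set (ι × ℕ)) (hq : ∀ a ∈ S, (q a).Finite) :
    ∃ (r : Set (ι × ℕ)) (S' : Set K), r.Finite ∧ S' ⊆ S ∧ ¬ S'.Countable ∧ (∀ a ∈ S', r ⊆ q a) ∧
      ∀ h, (∀ j, (h, j) ∉ r) → {a ∈ S' | ∃ j, (h, j) ∈ q a}.Countable := by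
  obtain ⟨n, hn⟩ : ∃ n, ¬ {a ∈ S | (q a).ncard = n}.Countable := by
    by_contra h
    push Not at h
    refine hS ((countable_iUnion h).mono fun a ha => ?_)
    exact mem_iUnion.2 ⟨_, ha, rfl⟩
  have key : ∀ (d : ℕ) (r : Set (ι × ℕ)), r.Finite →
      ¬ {a ∈ S | (q a).ncard = n ∧ r ⊆ q a}.Countable → n < r.ncard + d →
      ∃ (r : Set (ι × ℕ)) (S' : Set K), r.Finite ∧ S' ⊆ S ∧ ¬ S'.Countable ∧ (∀ a ∈ S', r ⊆ q a) ∧
      ∀ h, (∀ j, (h, j) ∉ r) → {a ∈ S' | ∃ j, (h, j) ∈ q a}.Countable := by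
    intro d
    induction d with
    | zero =>
      intro r _ h1 h2
      obtain ⟨a, ha, e, hr⟩ : {a ∈ S | (q a).ncard = n ∧ r ⊆ q a}.Nonempty := by
        by_contra h
        rw [not_nonempty_iff_eq_empty.1 h] at h1
        exact h1 countable_empty
      have := ncard_le_ncard hr (hq a ha)
      omega
    | succ d ih =>
      intro r hr h1 h2
      by_cases hh : ∀ h, (∀ j, (h, j) ∉ r) →
          {a ∈ {a ∈ S | (q a).ncard = n ∧ r ⊆ q a} | ∃ j, (h, j) ∈ q a}.Countable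
      · exact ⟨r, _, hr, fun a ha => ha.1, h1, fun a ha => ha.2.2, hh⟩
      · push Not at hh
        obtain ⟨h, h3, h4⟩ := hh
        obtain ⟨j, hj⟩ : ∃ j, ¬ {a ∈ S | (q a).ncard = n ∧ insert (h, j) r ⊆ q a}.Countable := by
          by_contra hc
          push Not at hc
          refine h4 ((countable_iUnion hc).mono ?_)
          rintro a ⟨⟨ha, e, hra⟩, j, hj⟩
          exact mem_iUnion.2 ⟨j, ha, e, insert_subset hj hra⟩
        refine ih _ (hr.insert _) hj ?_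
        rw [ncard_insert_of_notMem (h3 j) hr]
        omega
  exact key (n + 1) ∅ finite_empty (by simpa using hn) (by omega)

def Good (m : (ℕ → K) → ℕ) (p : (ℕ → K) → Set (ι × ℕ)) :
    ℕ → ℕ → (ℕ → K) → Set (ι × ℕ) → Prop
  | 0, i, x, r => ∃ z, ag i z x ∧ m z ≤ i ∧ p z = r
  | j + 1, i, x, r => r.Finite ∧ ∃ (S : Set K) (q : K → Set (ι × ℕ)), ¬ S.Countable ∧
      (∀ a ∈ S, Good m p j (i + 1) (update x i a) (q a) ∧ r ⊆ q a) ∧
      ∀ h, (∀ j, (h, j) ∉ r) → {a ∈ S | ∃ j, (h, j) ∈ q a}.Countable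

variable {m : (ℕ → K) → ℕ} {p : (ℕ → K) → Set (ι × ℕ)}

lemma good_fn (hp : ∀ z, (p z).Finite ∧ comp (p z) (p z)) (j : ℕ) :
    ∀ i x r, Good m p j i x r → r.Finite ∧ comp r r := by
  induction j with
  | zero => rintro i x r ⟨z, -, -, rfl⟩; exact hp z
  | succ j ih =>
    rintro i x r ⟨hr, S, q, hS, h1, -⟩
    obtain ⟨a, ha⟩ : S.Nonempty := by
      by_contra h
      rw [not_nonempty_iff_eq_empty.1 h] at hS
      exact hS countable_empty
    exact ⟨hr, fun h j j' e e' => (ih _ _ _ (h1 a ha).1).2 h j j' ((h1 a ha).2 e) ((h1 a ha).2 e')⟩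

lemma exG (hK : ¬ (univ : Set K).Countable) (hp : ∀ z, (p z).Finite ∧ comp (p z) (p z))
    (x0 : ℕ → K) : ∃ k r, Good m p k 0 x0 r := by
  classical
  by_contra h
  push Not at h
  have step : ∀ (i : ℕ) (x : ℕ → K), ∃ a : K,
      (∀ j r, ¬ Good m p j i x r) → ∀ j r, ¬ Good m p j (i + 1) (update x i a) r := by
    intro i x
    by_cases hx : ∀ j r, ¬ Good m p j i x r
    · have hB : ∀ j : ℕ, {a | ∃ r, Good m p j (i + 1) (update x i a) r}.Countable := by
        intro j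
        by_contra hc
        have h1 : ∀ a, ∃ r, a ∈ {a | ∃ r, Good m p j (i + 1) (update x i a) r} →
            Good m p j (i + 1) (update x i a) r := by
          intro a
          by_cases ha : ∃ r, Good m p j (i + 1) (update x i a) r
          · obtain ⟨r, hr⟩ := ha
            exact ⟨r, fun _ => hr⟩
          · exact ⟨∅, fun h => absurd h ha⟩
        choose q hq using h1
        obtain ⟨r, S', h1, h2, h3, h4, h5⟩ :=
          root _ hc q fun a ha => (good_fn hp _ _ _ _ (hq a ha)).1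
        exact hx (j + 1) r ⟨h1, S', q, h3, fun a ha => ⟨hq a (h2 ha), h4 a ha⟩, h5⟩
      have hne : ¬ (univ : Set K) ⊆ ⋃ j : ℕ, {a | ∃ r, Good m p j (i + 1) (update x i a) r} :=
        fun h => hK ((countable_iUnion hB).mono h)
      obtain ⟨a, -, ha⟩ := not_subset.mp hne
      exact ⟨a, fun _ j r hj => ha (mem_iUnion.mpr ⟨j, r, hj⟩)⟩
    · exact ⟨x 0, fun h => absurd h hx⟩
  choose f hf using step
  let xs : ℕ → ℕ → K := fun i => Nat.rec x0 (fun i x => update x i (f i x)) i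
  have hxs : ∀ i, xs (i + 1) = update (xs i) i (f i (xs i)) := fun _ => rfl
  have h1 : ∀ i j r, ¬ Good m p j i (xs i) r := by
    intro i
    induction i with
    | zero => exact h
    | succ i ih => rw [hxs]; exact hf i _ ih
  have h2 : ∀ i, ag i (fun l => xs (l + 1) l) (xs i) := by
    intro i
    induction i with
    | zero => intro l hl; omega
    | succ i ih =>
      intro l hl
      by_cases e : l = i
      · subst e; rfl
      · rw [hxs i, update_of_ne e]; exact ih l (by omega)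
  exact h1 (m fun l => xs (l + 1) l) 0 _ ⟨_, h2 _, le_rfl, rfl⟩

lemma pick {S : Set K} {q : K → Set (ι × ℕ)} {r t : Set (ι × ℕ)} (hS : ¬ S.Countable)
    (h1 : ∀ a ∈ S, comp (q a) (q a) ∧ r ⊆ q a)
    (h2 : ∀ h, (∀ j, (h, j) ∉ r) → {a ∈ S | ∃ j, (h, j) ∈ q a}.Countable)
    (ht : t.Finite) (hc : comp r t) {D : Set K} (hD : D.Countable) :
    ∃ a ∈ S, a ∉ D ∧ comp (q a) t := by
  have hb : (⋃ e ∈ {e ∈ t | ∀ j, (e.1, j) ∉ r}, {a ∈ S | ∃ j, (e.1, j) ∈ q a}).Countable :=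
    (ht.countable.mono (sep_subset _ _)).biUnion fun e he => h2 e.1 he.2
  obtain ⟨a, ha, hn⟩ := not_subset.1 fun h => hS ((hD.union hb).mono h)
  refine ⟨a, ha, fun h => hn (Or.inl h), fun h j j' e e' => ?_⟩
  by_cases hr : ∀ j, (h, j) ∉ r
  · exact (hn (Or.inr (mem_iUnion₂.2 ⟨(h, j'), ⟨e', hr⟩, ha, j, e⟩))).elim
  · push Not at hr
    obtain ⟨j0, h0⟩ := hr
    exact ((h1 a ha).1 h j j0 e ((h1 a ha).2 h0)).trans (hc h j0 j' h0 e')

variable [LinearOrder K]

def Ent (n : ℕ) (u v : ℕ → K) : Prop := ∀ l, l + 1 < n → u l < v (l + 1) ∧ v l < u (l + 1)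

lemma down (hI : ∀ a : K, (Iic a).Countable) (hp : ∀ z, (p z).Finite ∧ comp (p z) (p z))
    (C : K → Set K) (hC : ∀ a, (C a).Countable) (j : ℕ) :
    ∀ i x y r s, Good m p j i x r → Good m p j i y s → comp r s → Ent i x y →
      (0 < i → y 0 ∉ C (x 0)) → ∃ z w n, m z ≤ n ∧ m w ≤ n ∧ comp (p z) (p w) ∧ Ent n z w ∧
      (0 < n → w 0 ∉ C (z 0)) := by
  induction j with
  | zero =>
    rintro i x y r s ⟨z, h1, h2, rfl⟩ ⟨w, g1, g2, rfl⟩ hc he h0
    refine ⟨z, w, i, h2, g2, hc, fun l hl => ?_, fun hi => ?_⟩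
    · rw [h1 l (by omega), h1 _ hl, g1 l (by omega), g1 _ hl]; exact he l hl
    · rw [h1 0 hi, g1 0 hi]; exact h0 hi
  | succ j ih =>
    rintro i x y r s ⟨hr, S, q, h1, h2, h3⟩ ⟨hs, S', q', g1, g2, g3⟩ hc he h0
    obtain ⟨a, ha, haD, hac⟩ := pick h1
      (fun a ha => ⟨(good_fn hp _ _ _ _ (h2 a ha).1).2, (h2 a ha).2⟩) h3 hs hc (hI (y (i - 1)))
    obtain ⟨b, hb, hbD, hbc⟩ := pick g1
      (fun a ha => ⟨(good_fn hp _ _ _ _ (g2 a ha).1).2, (g2 a ha).2⟩) g3
      (good_fn hp _ _ _ _ (h2 a ha).1).1 (fun h j j' e e' => (hac h j' j e' e).symm)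
      ((hI (x (i - 1))).union (hC (update x i a 0)))
    refine ih (i + 1) _ _ _ _ (h2 a ha).1 (g2 b hb).1 (fun h j j' e e' => (hbc h j' j e' e).symm)
      (fun l hl => ?_) fun _ => ?_
    · rw [update_of_ne (by omega : l ≠ i), update_of_ne (by omega : l ≠ i)]
      by_cases e : l + 1 = i
      · subst e
        rw [update_self, update_self]
        exact ⟨not_le.1 fun h => hbD (Or.inl h), not_le.1 haD⟩
      · rw [update_of_ne e, update_of_ne e]
        exact he l (by omega)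
    · by_cases e : 0 = i
      · subst e
        rw [update_self]
        exact fun h => hbD (Or.inr h)
      · rw [update_of_ne e, update_of_ne e]
        exact h0 (by omega)

lemma nonsep (hK : ¬ (univ : Set K).Countable) (hI : ∀ a : K, (Iic a).Countable)
    (hp : ∀ z, (p z).Finite ∧ comp (p z) (p z)) (C : K → Set K) (hC : ∀ a, (C a).Countable)
    (m : (ℕ → K) → ℕ) (x0 : ℕ → K) :
    ∃ z w n, m z ≤ n ∧ m w ≤ n ∧ comp (p z) (p w) ∧ Ent n z w ∧ w 0 ∉ C (z 0) := by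
  obtain ⟨k, r, h⟩ := exG (m := fun z => m z + 1) hK hp x0
  obtain ⟨z, w, n, h1, h2, h3, h4, h5⟩ := down hI hp C hC k 0 x0 x0 r r h h
    (good_fn hp _ _ _ _ h).2 (fun l hl => by omega) (fun h => by omega)
  exact ⟨z, w, n, by omega, by omega, h3, h4, h5 (by omega)⟩

lemma cnt (hI : ∀ a : K, (Iic a).Countable) (n : ℕ) (b : ℕ → K) (k0 : K) :
    {z : ℕ → K | (∀ i < n, z i ≤ b i) ∧ ∀ i, n ≤ i → z i = k0}.Countable := by
  have h1 : (Set.pi univ fun i : Fin n => Iic (b i)).Countable := countable_univ_pi fun i => hI _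
  refine countable_of_injective_of_countable_image (f := fun z (i : Fin n) => z i) ?_ (h1.mono ?_)
  · intro z hz w hw e
    funext i
    rcases lt_or_ge i n with h | h
    · exact congrFun e ⟨i, h⟩
    · rw [hz.2 i h, hw.2 i h]
  · rintro _ ⟨z, hz, rfl⟩ i -
    exact hz.1 i i.2

end Pool.Agent.H.MP_6bd103
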