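import Pool.Agent.H.MP_6bd103.A

set_option autoImplicit false
open Set Function Topology Filter

namespace Pool.Agent.H.MP_6bd103

variable {K : Type}

abbrev J (K : Type) : Type := ℕ × (ℕ → K) × (ℕ → K) × (((ℕ → K) → ℕ) → ℕ)

inductive X (K : Type) : Type
  | pt (x : ℕ → K)
  | iso (j : J K)

inductive Y (K : Type) : Type
  | top (a : K)
  | iso (j : J K)

def f : X K → Y K
  | X.pt x => Y.top (x 0)
  | X.iso j => Y.iso j

def Ok (m : ℕ) (x : ℕ → K) (H : Set ((ℕ → K) → ℕ)) : Prop :=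
  H.Finite ∧ ∀ h ∈ H, ∀ y, ag m y x → h y = h x

open Classical in
noncomputable def ind (m : ℕ) (x : ℕ → K) : (ℕ → K) → ℕ := fun y => if ag m y x then 1 else 0

lemma ag_refl (m : ℕ) (x : ℕ → K) : ag m x x := fun _ _ => rfl
lemma ag.symm {m : ℕ} {x y : ℕ → K} (h : ag m x y) : ag m y x := fun i hi => (h i hi).symm
lemma ag.trans {m : ℕ} {x y z : ℕ → K} (h : ag m x y) (h' : ag m y z) : ag m x z :=
  fun i hi => (h i hi).trans (h' i hi)
lemma ag.mono {m n : ℕ} {x y : ℕ → K} (h : ag m x y) (hn : n ≤ m) : ag n x y :=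
  fun i hi => h i (lt_of_lt_of_le hi hn)

lemma ind_ok (m : ℕ) (x y : ℕ → K) : Ok m y {ind m x} := by
  refine ⟨finite_singleton _, ?_⟩
  rintro _ rfl z hz
  classical
  unfold ind
  exact if_congr ⟨fun h => hz.symm.trans h, fun h => hz.trans h⟩ rfl rfl

lemma Ok.union {m n : ℕ} {x : ℕ → K} {H H' : Set ((ℕ → K) → ℕ)} (h : Ok m x H) (h' : Ok n x H') :
    Ok (max m n) x (H ∪ H') := by
  refine ⟨h.1.union h'.1, ?_⟩
  rintro g (hg | hg) y hy
  · exact h.2 g hg y (hy.mono (le_max_left _ _))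
  · exact h'.2 g hg y (hy.mono (le_max_right _ _))

lemma Ok.mono {m n : ℕ} {x : ℕ → K} {H : Set ((ℕ → K) → ℕ)} (h : Ok m x H) (hn : m ≤ n) :
    Ok n x H := ⟨h.1, fun g hg y hy => h.2 g hg y (hy.mono hn)⟩

lemma Ok.move {m : ℕ} {x y : ℕ → K} {H : Set ((ℕ → K) → ℕ)} (h : Ok m x H) (hy : ag m y x) :
    Ok m y H := ⟨h.1, fun g hg z hz => (h.2 g hg z (hz.trans hy)).trans (h.2 g hg y hy).symm⟩

lemma ok_empty (m : ℕ) (x : ℕ → K) : Ok m x ∅ := ⟨finite_empty, fun _ h => h.elim⟩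

variable [LinearOrder K]

def B (m : ℕ) (x : ℕ → K) (H : Set ((ℕ → K) → ℕ)) : Set (X K) := fun p =>
  match p with
  | X.pt y => ag m y x
  | X.iso j => m ≤ j.1 ∧ Ent j.1 j.2.1 j.2.2.1 ∧ (ag m j.2.1 x ∨ ag m j.2.2.1 x) ∧
      ∀ h ∈ H, j.2.2.2 h = h x

lemma B_mono {m n : ℕ} {x : ℕ → K} {H H' : Set ((ℕ → K) → ℕ)} (h : m ≤ n) (h' : H ⊆ H') :
    B n x H' ⊆ B m x H := by
  rintro (y | j) hp
  · exact ag.mono hp h
  · exact ⟨h.trans hp.1, hp.2.1, hp.2.2.1.imp (fun e => e.mono h) (fun e => e.mono h),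
      fun g hg => hp.2.2.2 g (h' hg)⟩

lemma B_move {m : ℕ} {x y : ℕ → K} {H : Set ((ℕ → K) → ℕ)} (h : Ok m x H) (hy : ag m y x) :
    B m y H ⊆ B m x H := by
  rintro (z | j) hp
  · exact ag.trans hp hy
  · exact ⟨hp.1, hp.2.1, hp.2.2.1.imp (fun e => e.trans hy) (fun e => e.trans hy),
      fun g hg => (hp.2.2.2 g hg).trans (h.2 g hg y hy)⟩

instance : TopologicalSpace (X K) where
  IsOpen U := ∀ x, X.pt x ∈ U → ∃ m H, Ok m x H ∧ B m x H ⊆ U
  isOpen_univ := fun x _ => ⟨0, ∅, ok_empty 0 x, subset_univ _⟩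
  isOpen_inter := by
    intro s t hs ht x hx
    obtain ⟨n, O, hO, h⟩ := hs x hx.1
    obtain ⟨n', O', hO', h'⟩ := ht x hx.2
    exact ⟨max n n', O ∪ O', hO.union hO', subset_inter
      ((B_mono (le_max_left _ _) subset_union_left).trans h)
      ((B_mono (le_max_right _ _) subset_union_right).trans h')⟩
  isOpen_sUnion := by
    rintro S hS x ⟨t, ht, hx⟩
    obtain ⟨n, O, hO, h⟩ := hS t ht x hx
    exact ⟨n, O, hO, h.trans (subset_sUnion_of_mem ht)⟩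

instance : TopologicalSpace (Y K) := TopologicalSpace.coinduced f inferInstance

lemma op_iff {U : Set (X K)} :
    IsOpen U ↔ ∀ x, X.pt x ∈ U → ∃ m H, Ok m x H ∧ B m x H ⊆ U := Iff.rfl

lemma opY {U : Set (Y K)} :
    IsOpen U ↔ ∀ x, Y.top (x 0) ∈ U → ∃ m H, Ok m x H ∧ B m x H ⊆ f ⁻¹' U := Iff.rfl

lemma f_cont : Continuous (f : X K → Y K) := continuous_coinduced_rng

lemma B_open {m : ℕ} {x : ℕ → K} {H : Set ((ℕ → K) → ℕ)} (h : Ok m x H) : IsOpen (B m x H) :=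
  op_iff.mpr fun _ hy => ⟨m, H, h.move hy, B_move h hy⟩

lemma iso_open (j : J K) : IsOpen {X.iso j} := op_iff.mpr fun _ hy => by cases hy

lemma nh {s : Set (X K)} {x : ℕ → K} (h : s ∈ 𝓝 (X.pt x)) :
    ∃ m H, Ok m x H ∧ B m x H ⊆ s := by
  obtain ⟨t, hts, ht, hx⟩ := mem_nhds_iff.mp h
  obtain ⟨n, O, hO, h⟩ := op_iff.mp ht x hx
  exact ⟨n, O, hO, h.trans hts⟩

lemma B_closed (m : ℕ) (x : ℕ → K) (H : Set ((ℕ → K) → ℕ)) :
    IsClosed (B m x (H ∪ {ind m x})) := by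
  rw [← isOpen_compl_iff, op_iff]
  intro y hy
  refine ⟨m, _, ind_ok m x y, ?_⟩
  have hy' : ¬ ag m y x := hy
  rintro (z | j) hp hq
  · exact hy' (ag.trans (ag.symm hp) hq)
  · have e := (hp.2.2.2 _ rfl).symm.trans (hq.2.2.2 _ (Or.inr rfl))
    simp [ind, hy', ag_refl] at e

instance : T1Space (X K) := by
  refine ⟨fun p => ?_⟩
  rw [← isOpen_compl_iff, op_iff]
  intro y hy
  rcases p with x | j
  · have : y ≠ x := fun e => hy (by rw [e]; rfl)
    obtain ⟨i, hi⟩ := Function.ne_iff.mp this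
    refine ⟨i + 1, ∅, ok_empty _ _, ?_⟩
    rintro p hp rfl
    exact hi (hp i (by omega)).symm
  · refine ⟨j.1 + 1, ∅, ok_empty _ _, ?_⟩
    rintro p hp rfl
    exact absurd hp.1 (by omega)

instance : RegularSpace (X K) := by
  refine RegularSpace.of_exists_mem_nhds_isClosed_subset ?_
  rintro (x | j) s hs
  · obtain ⟨n, O, hO, h⟩ := nh hs
    have := hO.union (ind_ok n x x)
    rw [max_self] at this
    exact ⟨_, (B_open this).mem_nhds (ag_refl _ _), B_closed n x O,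
      (B_mono le_rfl subset_union_left).trans h⟩
  · exact ⟨_, (iso_open j).mem_nhds rfl, isClosed_singleton,
      singleton_subset_iff.mpr (mem_of_mem_nhds hs)⟩

instance : T3Space (X K) where

lemma f_closed : IsClosedMap (f : X K → Y K) := by
  intro F hF
  rw [← isOpen_compl_iff, opY]
  intro y hy
  obtain ⟨m, H, h1, h2⟩ := op_iff.1 hF.isOpen_compl y fun h => hy ⟨_, h, rfl⟩
  refine ⟨m + 1, H, h1.mono (Nat.le_succ m), ?_⟩
  rintro (z | j) hp ⟨q, hq, e⟩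
  · refine hy ⟨q, hq, e.trans ?_⟩
    exact congrArg Y.top (hp 0 (by omega))
  · rcases q with w | j'
    · cases e
    · cases e
      exact h2 (B_mono (Nat.le_succ m) Subset.rfl hp) hq

omit [LinearOrder K] in
lemma f_surj : Surjective (f : X K → Y K) := by
  rintro (a | j)
  · exact ⟨X.pt fun _ => a, rfl⟩
  · exact ⟨X.iso j, rfl⟩

instance : T1Space (Y K) := by
  refine ⟨fun q => ?_⟩
  obtain ⟨p, rfl⟩ := f_surj q
  simpa using f_closed _ (isClosed_singleton (x := p))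

def E (a : K) : Set (Y K) := fun q =>
  match q with
  | Y.top b => b = a
  | Y.iso j => j.2.2.2 (ind 1 fun _ => a) = 1

omit [LinearOrder K] in
lemma ag1 {x : ℕ → K} {a : K} : ag 1 x (fun _ => a) ↔ x 0 = a :=
  ⟨fun h => h 0 one_pos, fun h i hi => by obtain rfl : i = 0 := by omega
                                          exact h⟩

instance : RegularSpace (Y K) := by
  refine RegularSpace.of_exists_mem_nhds_isClosed_subset ?_
  rintro (a | j) s hs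
  · obtain ⟨t, hts, ht, ha⟩ := mem_nhds_iff.mp hs
    have hE : IsOpen (E a) := by
      rw [opY]
      intro x hx
      refine ⟨1, _, ind_ok 1 (fun _ => a) x, ?_⟩
      rintro (z | j) hp
      · exact (hp 0 one_pos).trans hx
      · have e := hp.2.2.2 _ rfl
        rw [show ind 1 (fun _ => a) x = 1 from if_pos (ag1.2 hx)] at e
        exact e
    refine ⟨t ∩ E a, (ht.inter hE).mem_nhds ⟨ha, rfl⟩, ?_, inter_subset_left.trans hts⟩
    rw [← isOpen_compl_iff, opY]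
    intro x hx
    have hx' : x 0 ≠ a := fun e => hx ⟨e ▸ ha, e⟩
    refine ⟨1, _, ind_ok 1 (fun _ => a) x, ?_⟩
    rintro (z | j) hp hq
    · exact hx' ((hp 0 one_pos).symm.trans hq.2)
    · have e := hp.2.2.2 _ rfl
      rw [show ind 1 (fun _ => a) x = 0 from if_neg fun h => hx' (ag1.1 h)] at e
      exact absurd (e.symm.trans hq.2) (by omega)
  · exact ⟨{Y.iso j}, IsOpen.mem_nhds (opY.2 fun _ h => by cases h) rfl, isClosed_singleton,
      singleton_subset_iff.mpr (mem_of_mem_nhds hs)⟩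

instance : T3Space (Y K) where

lemma para (hI : ∀ a : K, (Iic a).Countable) (k0 : K) (𝒰 : Set (Set (X K)))
    (hU : ∀ U ∈ 𝒰, IsOpen U) (hc : ⋃₀ 𝒰 = univ) :
    ∃ 𝒱 : Set (Set (X K)), (∀ V ∈ 𝒱, IsOpen V) ∧ ⋃₀ 𝒱 = univ ∧ (∀ V ∈ 𝒱, ∃ U ∈ 𝒰, V ⊆ U) ∧
      ∀ x : X K, ∃ N ∈ 𝓝 x, {V ∈ 𝒱 | (V ∩ N).Nonempty}.Countable := by
  classical
  have hcov : ∀ p : X K, ∃ U ∈ 𝒰, p ∈ U := fun p => by
    have : p ∈ ⋃₀ 𝒰 := hc ▸ mem_univ p
    exact this
  have h1 : ∀ x, ∃ m, ∃ H, Ok m x H ∧ ∃ U ∈ 𝒰, B m x H ⊆ U := by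
    intro x
    obtain ⟨U, hU1, hU2⟩ := hcov (X.pt x)
    obtain ⟨n, O, hO, h⟩ := op_iff.mp (hU U hU1) x hU2
    exact ⟨n, O, hO, U, hU1, h⟩
  let M : (ℕ → K) → ℕ := fun x => Nat.find (h1 x)
  have hM0 : ∀ x y, ag (M x) y x → M y ≤ M x := by
    intro x y hy
    obtain ⟨H, g1, U, g2, g3⟩ := Nat.find_spec (h1 x)
    exact Nat.find_min' _ ⟨H, g1.move hy, U, g2, (B_move g1 hy).trans g3⟩
  have hM : ∀ x y, ag (M x) y x → M y = M x := fun x y hy =>
    le_antisymm (hM0 x y hy) (hM0 y x (hy.mono (hM0 x y hy)).symm)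
  have hMo : ∀ x, Ok (M x) x {M} := fun x =>
    ⟨finite_singleton _, by rintro _ rfl y hy; exact hM x y hy⟩
  choose H hH1 hH2 using fun x => Nat.find_spec (h1 x)
  let V : (ℕ → K) → Set (X K) := fun z => B (M z) z (H z ∪ {M})
  have hV : ∀ z, IsOpen (V z) := fun z => B_open (((hH1 z).union (hMo z)).mono (max_self (M z)).le)
  let R : Set (ℕ → K) := {z | ∀ i, M z ≤ i → z i = k0}
  have hR : ∀ x, ∃ z ∈ R, X.pt x ∈ V z := by
    intro x
    have e : ag (M x) (fun i => if i < M x then x i else k0) x := fun i hi => if_pos hi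
    refine ⟨fun i => if i < M x then x i else k0, fun i hi => if_neg ?_, ?_⟩
    · rw [hM x _ e] at hi; omega
    · show ag _ _ _
      rw [hM x _ e]; exact e.symm
  refine ⟨V '' R ∪ {T | ∃ j, T = {X.iso j} ∧ ∀ z ∈ R, X.iso j ∉ V z}, ?_, ?_, ?_, ?_⟩
  · rintro _ (⟨z, -, rfl⟩ | ⟨j, rfl, -⟩)
    · exact hV z
    · exact iso_open j
  · refine eq_univ_of_forall ?_
    rintro (x | j)
    · obtain ⟨z, hz, h⟩ := hR x
      exact ⟨_, Or.inl ⟨z, hz, rfl⟩, h⟩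
    · by_cases h : ∀ z ∈ R, X.iso j ∉ V z
      · exact ⟨_, Or.inr ⟨j, rfl, h⟩, rfl⟩
      · push Not at h
        obtain ⟨z, hz, h⟩ := h
        exact ⟨_, Or.inl ⟨z, hz, rfl⟩, h⟩
  · rintro _ (⟨z, -, rfl⟩ | ⟨j, rfl, -⟩)
    · obtain ⟨U, g1, g2⟩ := hH2 z
      exact ⟨U, g1, (B_mono le_rfl subset_union_left).trans g2⟩
    · obtain ⟨U, g1, g2⟩ := hcov (X.iso j)
      exact ⟨U, g1, singleton_subset_iff.2 g2⟩
  · rintro (x | j)
    · obtain ⟨z0, hz0, h0⟩ := hR x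
      refine ⟨V z0 ∩ B (M x + 1) x {M}, ((hV z0).inter
        (B_open ((hMo x).mono (Nat.le_succ _)))).mem_nhds ⟨h0, ag_refl _ _⟩, ?_⟩
      refine ((cnt hI (M x) (fun i => max (x i) (x (i + 1))) k0).image V).mono ?_
      rintro _ ⟨⟨z, hz, rfl⟩ | ⟨j, rfl, hj⟩, p, hp, h, hq⟩
      swap
      · obtain rfl : p = X.iso j := hp
        exact absurd h (hj z0 hz0)
      rcases p with y | ⟨n, u, v, g⟩
      · have e : M z = M x := (hM z y hp).symm.trans (hM x y (ag.mono hq (Nat.le_succ _)))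
        refine ⟨z, ⟨fun i hi => ?_, fun i hi => hz i (e ▸ hi)⟩, rfl⟩
        rw [← hp i (e ▸ hi), hq i (by omega)]
        exact le_max_left _ _
      · have e : M z = M x := (hp.2.2.2 M (Or.inr rfl)).symm.trans (hq.2.2.2 M rfl)
        refine ⟨z, ⟨fun i hi => ?_, fun i hi => hz i (e ▸ hi)⟩, rfl⟩
        have hn : i + 1 < n := by have := hq.1; simp only at this; omega
        have hE := hq.2.1 i hn
        rcases hp.2.2.1 with g1 | g1 <;> rcases hq.2.2.1 with g2 | g2 <;> rw [← g1 i (e ▸ hi)]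
        · rw [g2 i (by omega)]; exact le_max_left _ _
        · exact le_max_of_le_right (g2 (i + 1) (by omega) ▸ hE.1.le)
        · exact le_max_of_le_right (g2 (i + 1) (by omega) ▸ hE.2.le)
        · rw [g2 i (by omega)]; exact le_max_left _ _
    · refine ⟨{X.iso j}, (iso_open j).mem_nhds rfl, ?_⟩
      refine (((cnt hI (j.2.2.2 M) (fun i => max (j.2.1 i) (j.2.2.1 i)) k0).image V).insert
        {X.iso j}).mono ?_
      rintro _ ⟨⟨z, hz, rfl⟩ | ⟨j', rfl, hj⟩, p, hp, rfl⟩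
      · have e : j.2.2.2 M = M z := hp.2.2.2 M (Or.inr rfl)
        refine Or.inr ⟨z, ⟨fun i hi => ?_, fun i hi => hz i (e ▸ hi)⟩, rfl⟩
        rcases hp.2.2.1 with h | h
        · rw [← h i (e ▸ hi)]; exact le_max_left _ _
        · rw [← h i (e ▸ hi)]; exact le_max_right _ _
      · left; rw [mem_singleton_iff.mp hp]

def U0 (a : K) : Set (Y K) := {p | ∀ b, p = Y.top b → b = a}

lemma U0_open (a : K) : IsOpen (U0 a) := by
  rw [opY]
  intro x hx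
  refine ⟨1, ∅, ok_empty _ _, ?_⟩
  rintro (z | j) hp b e
  · cases e
    exact (hp 0 one_pos).trans (hx _ rfl)
  · cases e

lemma npl (hK : ¬ (univ : Set K).Countable) (hI : ∀ a : K, (Iic a).Countable) (k0 : K) :
    ¬ ∃ 𝒱 : Set (Set (Y K)), (∀ V ∈ 𝒱, IsOpen V) ∧ ⋃₀ 𝒱 = univ ∧
    (∀ V ∈ 𝒱, ∃ U ∈ range U0, V ⊆ U) ∧
    ∀ x : Y K, ∃ N ∈ 𝓝 x, {V ∈ 𝒱 | (V ∩ N).Nonempty}.Countable := by
  classical
  rintro ⟨𝒱, ho, hc, hr, hl⟩
  have h1 : ∀ a : K, ∃ V ∈ 𝒱, Y.top a ∈ V := fun a => by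
    have : Y.top a ∈ ⋃₀ 𝒱 := hc ▸ mem_univ _
    exact this
  choose V hV hxV using h1
  choose N hN hNc using hl
  have h2 : ∀ x : ℕ → K, ∃ m H, Ok m x H ∧ B m x H ⊆ f ⁻¹' (N (Y.top (x 0)) ∩ V (x 0)) :=
    fun x => nh (f_cont.continuousAt.preimage_mem_nhds
      (inter_mem (hN _) ((ho _ (hV _)).mem_nhds (hxV _))))
  choose m H hH hB using h2
  have h3 : ∀ a : K, (⋃ T ∈ {T ∈ 𝒱 | (T ∩ N (Y.top a)).Nonempty}, {b | Y.top b ∈ T}).Countable := by
    intro a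
    refine (hNc _).biUnion fun T hT => ?_
    obtain ⟨_, ⟨b, rfl⟩, hb⟩ := hr T hT.1
    exact (countable_singleton b).mono fun c hc => hb hc c rfl
  obtain ⟨x, y, n, g1, g2, g3, g4, g5⟩ := nonsep (p := fun z => (fun h => (h, h z)) '' H z) hK hI
    (fun z => ⟨(hH z).1.image _, by
      rintro h j j' ⟨_, -, e⟩ ⟨_, -, e'⟩
      cases e; cases e'; rfl⟩) _ h3 m (fun _ => k0)
  refine g5 (mem_iUnion₂.2 ⟨V (y 0), ⟨hV _, f (X.iso (n, x, y, fun h => if h ∈ H x then h x else h y)),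
    ?_, ?_⟩, hxV _⟩)
  · refine (@hB y (X.iso _) ⟨g2, g4, Or.inr (ag_refl _ _), fun h hh => ?_⟩).2
    by_cases e : h ∈ H x
    · exact (if_pos e).trans (g3 h _ _ ⟨h, e, rfl⟩ ⟨h, hh, rfl⟩)
    · exact if_neg e
  · exact (@hB x (X.iso _) ⟨g1, g4, Or.inl (ag_refl _ _), fun h hh => if_pos hh⟩).1

end Pool.Agent.H.MP_6bd103
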